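import Pool.Agent.H992.BE.Defs
import Pool.Graph.R_pool_sql_team_seeded_5cf16337.K3h40.EC.M5

/-!
# Waves inside `C(ℂ, ℝ)` (S_Emb, S_Closed)
-/

set_option autoImplicit false
open MeasureTheory Filter Topology Complex
open scoped ContDiff ENNReal

namespace Pool.Agent.H788.BE

open Pool.Agent.W745.RW (lap)
open Pool.Agent.K3h40.EC (psi ps lps KK KK_ps0 KK_lps KK_contf ps_smooth ps_Sp lps_cont lps_Sp repR
  repL reg af Dc)
open Pool.Agent.N661.BR (MW)
open Pool.Agent.H992.BE

/-- **S_Closed.** -/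
theorem closed : S_Closed := by
  intro R
  have h : {f : C(ℂ, ℝ) | Good R f} = ⋂ x : ℂ, ⋂ _ : ‖x‖ ≤ R,
      {f : C(ℂ, ℝ) | KK (ps 0) f x = (f x : ℂ)} ∩ {f : C(ℂ, ℝ) | KK lps f x = -(f x : ℂ)} := by
    ext f
    simp only [Set.mem_iInter, Set.mem_inter_iff, Set.mem_ofPred_eq]
    constructor
    · intro hf x hx
      obtain ⟨h1, h2⟩ := hf x hx
      rw [KK_ps0, KK_lps, h1, h2]
      exact ⟨rfl, by push_cast; rfl⟩
    · intro hf x hx
      obtain ⟨h1, h2⟩ := hf x hx
      rw [KK_ps0] at h1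
      rw [KK_lps] at h2
      exact ⟨by exact_mod_cast h1, by exact_mod_cast h2⟩
  rw [h]
  refine isClosed_iInter fun x => isClosed_iInter fun _ => IsClosed.inter ?_ ?_
  · refine isClosed_eq (KK_contf (ps_smooth 0).continuous (ps_Sp 0) x) ?_
    exact Complex.continuous_ofReal.comp (continuous_eval_const x)
  · refine isClosed_eq (KK_contf lps_cont lps_Sp x) ?_
    exact (Complex.continuous_ofReal.comp (continuous_eval_const x)).neg

/-- waves are reproduced -/
theorem good_of_MW (f : MW) (R : ℝ) : Good R (toC f) := by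
  intro x _
  have hc : ContDiffOn ℝ ∞ f.1 Set.univ := f.2.1.contDiffOn
  have he : ∀ z ∈ (Set.univ : Set ℂ), (1 : ℝ) ^ 2 * lap f.1 z + f.1 z = 0 := fun z _ => by
    rw [one_pow, one_mul]
    exact f.2.2 z
  have hD : Dc (Set.univ : Set ℂ) x 1 := Set.subset_univ _
  have haf : ∀ w : ℂ, af x 1 w = x + w := fun w => by
    unfold af
    rw [Complex.ofReal_one, one_mul]
  have h1 := repR isOpen_univ hc one_pos he hD
  have h2 := repL isOpen_univ hc one_pos he hD
  simp only [haf] at h1 h2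
  exact ⟨h1, h2⟩

/-- functions which are reproduced are waves -/
theorem mem_range_of_good (f : C(ℂ, ℝ)) (hf : ∀ R : ℝ, Good R f) : f ∈ Set.range toC := by
  have h := reg f.continuous (fun x => (hf ‖x‖ x le_rfl).1) (fun x => (hf ‖x‖ x le_rfl).2)
  exact ⟨⟨f, h⟩, rfl⟩

/-- measurability in the space of continuous functions -/
theorem meas_of_eval [MeasurableSpace C(ℂ, ℝ)] [BorelSpace C(ℂ, ℝ)] {α : Type*}
    [MeasurableSpace α] (F : α → C(ℂ, ℝ)) (hF : ∀ x : ℂ, Measurable fun a => F a x) :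
    Measurable F := by
  rw [BorelSpace.measurable_eq (α := C(ℂ, ℝ)),
    borel_eq_generateFrom_of_subbasis (ContinuousMap.compactOpen_eq (X := ℂ) (Y := ℝ))]
  refine measurable_generateFrom ?_
  rintro _ ⟨K, hK, U, hU, rfl⟩
  have hU : IsOpen U := hU
  obtain ⟨s, hsc, hsd⟩ := TopologicalSpace.exists_countable_dense K
  have h : F ⁻¹' {f : C(ℂ, ℝ) | Set.MapsTo f K U} =
      ⋃ n : ℕ, ⋂ x ∈ s, {a | F a (x : ℂ) ∈ (Metric.thickening (1 / ((n : ℝ) + 1)) Uᶜ)ᶜ} := by
    ext a
    simp only [Set.mem_preimage, Set.mem_ofPred_eq, Set.mem_iUnion, Set.mem_iInter]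
    constructor
    · intro ha
      have hd : Disjoint (F a '' K) Uᶜ := by
        rw [Set.disjoint_compl_right_iff_subset]
        exact ha.image_subset
      obtain ⟨δ, hδ, hδ2⟩ := hd.exists_thickenings (hK.image (F a).continuous) hU.isClosed_compl
      obtain ⟨n, hn⟩ := exists_nat_one_div_lt hδ
      refine ⟨n, fun x _ hx => ?_⟩
      refine Set.disjoint_left.1 hδ2 (Metric.self_subset_thickening hδ _ ⟨(x : ℂ), x.2, rfl⟩) ?_
      exact Metric.thickening_mono hn.le _ hx
    · rintro ⟨n, hn⟩ x hx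
      have hcl : IsClosed {x : K | F a (x : ℂ) ∈ (Metric.thickening (1 / ((n : ℝ) + 1)) Uᶜ)ᶜ} :=
        Metric.isOpen_thickening.isClosed_compl.preimage
          ((F a).continuous.comp continuous_subtype_val)
      have h1 : (⟨x, hx⟩ : K) ∈ {x : K | F a (x : ℂ) ∈
          (Metric.thickening (1 / ((n : ℝ) + 1)) Uᶜ)ᶜ} := by
        have h2 : closure s ⊆ {x : K | F a (x : ℂ) ∈
          (Metric.thickening (1 / ((n : ℝ) + 1)) Uᶜ)ᶜ} := closure_minimal (fun y hy => hn y hy) hcl
        exact h2 (hsd _)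
      have h3 : F a x ∉ Metric.thickening (1 / ((n : ℝ) + 1)) Uᶜ := h1
      by_contra h4
      exact h3 (Metric.self_subset_thickening (by positivity) _ h4)
  rw [h]
  refine MeasurableSet.iUnion fun n => MeasurableSet.biInter hsc fun x _ => ?_
  exact hF x Metric.isOpen_thickening.measurableSet.compl

/-- **S_Emb.** -/
theorem emb : S_Emb := by
  intro _ _
  have hr : Set.range toC = ⋂ R : ℝ, {f : C(ℂ, ℝ) | Good R f} := by
    ext f
    rw [Set.mem_iInter]
    constructor
    · rintro ⟨g, rfl⟩ R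
      exact good_of_MW g R
    · intro hf
      exact mem_range_of_good f hf
  have hcl : IsClosed (Set.range toC) := by
    rw [hr]
    exact isClosed_iInter fun R => closed R
  have hcoe : Measurable fun (f : C(ℂ, ℝ)) (y : ℂ) => f y :=
    measurable_pi_iff.2 fun y => (continuous_eval_const y).measurable
  refine ⟨⟨?_, ?_, ?_⟩, hcl, mem_range_of_good⟩
  · intro f g hfg
    apply Subtype.ext
    funext x
    exact DFunLike.congr_fun hfg x
  · refine meas_of_eval toC fun x => ?_
    exact (measurable_pi_apply x).comp measurable_subtype_coe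
  · rintro A ⟨B, hB, rfl⟩
    have h : toC '' (Subtype.val ⁻¹' B) =
        Set.range toC ∩ (fun (f : C(ℂ, ℝ)) (y : ℂ) => f y) ⁻¹' B := by
      ext f
      constructor
      · rintro ⟨g, hg, rfl⟩
        exact ⟨⟨g, rfl⟩, hg⟩
      · rintro ⟨⟨g, rfl⟩, hg⟩
        exact ⟨g, hg, rfl⟩
    rw [h]
    exact hcl.measurableSet.inter (hcoe hB)

end Pool.Agent.H788.BE
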